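import Pool.Agent.W567.IV.Stm

/-! # A periodic billiard orbit on spherical boundary parts gives a closed chain -/

set_option autoImplicit false

open Filter Topology

namespace W973.IV

open Pool.Agent.W567.IV

section geo

variable {E : Type} [NormedAddCommGroup E] [InnerProductSpace ℝ E] [CompleteSpace E]

theorem deriv_curve {f : E → ℝ} (hf : Differentiable ℝ f) (p : E) {c : ℝ → E} {c' : E}
    (hc0 : c 0 = p) (hc : HasDerivAt c c' 0) :
    HasDerivAt (fun t => f (c t)) (inner ℝ (gradient f p) c') 0 := by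
  have h1 : HasFDerivAt f ((InnerProductSpace.toDual ℝ E) (gradient f p)) (c 0) := by
    rw [hc0]
    exact (hf p).hasGradientAt.hasFDerivAt
  have h2 := h1.comp_hasDerivAt 0 hc
  rwa [InnerProductSpace.toDual_apply_apply] at h2

theorem grad_tan {f : E → ℝ} (hf : Differentiable ℝ f) {p O : E} {ρ : ℝ}
    (h0 : ∀ᶠ x in 𝓝 p, f x = 0 ↔ ‖x - O‖ ^ 2 = ρ) (hp : ‖p - O‖ ^ 2 = ρ) (w : E)
    (hw : inner ℝ (p - O) w = 0) (hwn : ‖w‖ ^ 2 = ρ) :
    inner ℝ (gradient f p) w = 0 := by
  let c : ℝ → E := fun a => O + Real.cos a • (p - O) + Real.sin a • w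
  have hc0 : c 0 = p := by simp [c]
  have hc : HasDerivAt c w 0 := by
    have h1 : HasDerivAt (fun a : ℝ => Real.cos a • (p - O)) ((-Real.sin 0) • (p - O)) 0 :=
      (Real.hasDerivAt_cos 0).smul_const _
    have h2 : HasDerivAt (fun a : ℝ => Real.sin a • w) (Real.cos 0 • w) 0 :=
      (Real.hasDerivAt_sin 0).smul_const _
    have h3 := (h1.const_add O).add h2
    rw [Real.sin_zero, Real.cos_zero, neg_zero, zero_smul, zero_add, one_smul] at h3
    exact h3
  have hd := deriv_curve hf p hc0 hc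
  have hz : (fun t => f (c t)) =ᶠ[𝓝 0] fun _ => (0 : ℝ) := by
    have hcont : Tendsto c (𝓝 0) (𝓝 p) := by
      have := hc.continuousAt.tendsto
      rwa [hc0] at this
    filter_upwards [hcont.eventually h0] with t ht
    rw [ht]
    have e1 : c t - O = Real.cos t • (p - O) + Real.sin t • w := by
      simp only [c]
      abel
    rw [e1, norm_add_sq_real, norm_smul, norm_smul, mul_pow, mul_pow, real_inner_smul_left,
      real_inner_smul_right, hw, hp, hwn, Real.norm_eq_abs, Real.norm_eq_abs, sq_abs, sq_abs]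
    have := Real.sin_sq_add_cos_sq t
    linear_combination ρ * this
  exact hd.unique ((hasDerivAt_const (0 : ℝ) (0 : ℝ)).congr_of_eventuallyEq hz)

theorem grad_radial {f : E → ℝ} (hf : Differentiable ℝ f) {p O : E} {ρ : ℝ} (hρ : 0 < ρ)
    (h0 : ∀ᶠ x in 𝓝 p, f x = 0 ↔ ‖x - O‖ ^ 2 = ρ) (hp : ‖p - O‖ ^ 2 = ρ) :
    gradient f p = (inner ℝ (gradient f p) (p - O) / ρ) • (p - O) := by
  set g := gradient f p with hg
  set y := p - O with hy
  set w := g - (inner ℝ g y / ρ) • y with hw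
  have hyy : inner ℝ y y = ρ := by rw [real_inner_self_eq_norm_sq, hp]
  have hwy : inner ℝ y w = 0 := by
    rw [hw, inner_sub_right, real_inner_smul_right, hyy, real_inner_comm]
    field_simp
    ring
  by_contra hne
  have hw0 : w ≠ 0 := by
    intro h
    exact hne (sub_eq_zero.1 h)
  have hwn : 0 < ‖w‖ := norm_pos_iff.2 hw0
  have h1 := grad_tan hf h0 hp ((Real.sqrt ρ / ‖w‖) • w)
    (by rw [real_inner_smul_right, hwy, mul_zero])
    (by
      rw [norm_smul, Real.norm_eq_abs, abs_of_nonneg (by positivity), div_mul_cancel₀ _ hwn.ne',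
        Real.sq_sqrt hρ.le])
  rw [real_inner_smul_right] at h1
  have h2 : inner ℝ g w = 0 := by
    rcases mul_eq_zero.1 h1 with h | h
    · exfalso
      have : 0 < Real.sqrt ρ / ‖w‖ := div_pos (Real.sqrt_pos.2 hρ) hwn
      exact this.ne' h
    · exact h
  have h3 : ‖w‖ ^ 2 = 0 := by
    rw [← real_inner_self_eq_norm_sq]
    conv_lhs => rw [hw]
    rw [inner_sub_left, real_inner_smul_left, ← hw, h2, hwy]
    ring
  exact hwn.ne' (pow_eq_zero_iff (two_ne_zero)|>.1 h3)

/-- the sign of the radial derivative -/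
theorem sign_aux {f : E → ℝ} (hf : Differentiable ℝ f) {p y : E} (hp : f p = 0)
    (h : ∀ᶠ ε in 𝓝[>] (0 : ℝ), f (p + ε • y) < 0) : inner ℝ (gradient f p) y ≤ 0 := by
  have hc : HasDerivAt (fun ε : ℝ => p + ε • y) y 0 := by
    have h1 : HasDerivAt (fun ε : ℝ => ε • y) ((1 : ℝ) • y) 0 := (hasDerivAt_id 0).smul_const y
    rw [one_smul] at h1
    exact h1.const_add p
  have hd := deriv_curve hf p (by simp) hc
  have h2 := hd.tendsto_slope_zero_right
  refine le_of_tendsto h2 ?_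
  filter_upwards [h, self_mem_nhdsWithin] with ε h3 h4
  rw [zero_add, zero_smul, add_zero, hp, sub_zero, smul_eq_mul]
  exact mul_nonpos_of_nonneg_of_nonpos (inv_nonneg.2 (le_of_lt h4)) h3.le

theorem sign_in {f : E → ℝ} (hf : Differentiable ℝ f) {p O : E} {ρ : ℝ} (hρ : 0 < ρ)
    (hfp : f p = 0) (hp : ‖p - O‖ ^ 2 = ρ) (h : ∀ᶠ x in 𝓝 p, f x < 0 ↔ ‖x - O‖ ^ 2 < ρ) :
    0 ≤ inner ℝ (gradient f p) (p - O) := by
  have h1 : inner ℝ (gradient f p) (-(p - O)) ≤ 0 := by
    apply sign_aux hf hfp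
    have hcont : Tendsto (fun ε : ℝ => p + ε • (-(p - O))) (𝓝[>] 0) (𝓝 p) := by
      have : Continuous (fun ε : ℝ => p + ε • (-(p - O))) := by fun_prop
      have h2 := (this.tendsto 0).mono_left (nhdsWithin_le_nhds (s := Set.Ioi (0 : ℝ)))
      simpa using h2
    filter_upwards [hcont.eventually h, self_mem_nhdsWithin,
      nhdsWithin_le_nhds (Iio_mem_nhds (zero_lt_one (α := ℝ)))] with ε h3 h4 h5
    rw [h3]
    have e1 : p + ε • (-(p - O)) - O = (1 - ε) • (p - O) := by
      rw [sub_smul, one_smul, smul_neg]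
      abel
    rw [e1, norm_smul, mul_pow, hp, Real.norm_eq_abs, sq_abs]
    have h6 : 0 < ε := h4
    have h7 : ε < 1 := h5
    have h8 : (1 - ε) ^ 2 < 1 := by nlinarith
    have h9 := mul_lt_mul_of_pos_right h8 hρ
    rwa [one_mul] at h9
  rw [inner_neg_right] at h1
  linarith

theorem sign_out {f : E → ℝ} (hf : Differentiable ℝ f) {p O : E} {ρ : ℝ} (hρ : 0 < ρ)
    (hfp : f p = 0) (hp : ‖p - O‖ ^ 2 = ρ) (h : ∀ᶠ x in 𝓝 p, f x < 0 ↔ ρ < ‖x - O‖ ^ 2) :
    inner ℝ (gradient f p) (p - O) ≤ 0 := by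
  apply sign_aux hf hfp
  have hcont : Tendsto (fun ε : ℝ => p + ε • (p - O)) (𝓝[>] 0) (𝓝 p) := by
    have : Continuous (fun ε : ℝ => p + ε • (p - O)) := by fun_prop
    have h2 := (this.tendsto 0).mono_left (nhdsWithin_le_nhds (s := Set.Ioi (0 : ℝ)))
    simpa using h2
  filter_upwards [hcont.eventually h, self_mem_nhdsWithin] with ε h3 h4
  rw [h3]
  have e1 : p + ε • (p - O) - O = (1 + ε) • (p - O) := by
    rw [add_smul, one_smul]
    abel
  rw [e1, norm_smul, mul_pow, hp, Real.norm_eq_abs, sq_abs]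
  have h6 : 0 < ε := h4
  have h8 : 1 < (1 + ε) ^ 2 := by nlinarith
  have h9 := mul_lt_mul_of_pos_right h8 hρ
  rwa [one_mul] at h9

omit [CompleteSpace E] in
theorem inner_sub_smul (a b : E) (θ : ℝ) : inner ℝ (a - θ • b) (a - θ • b) =
    inner ℝ a a - 2 * θ * inner ℝ a b + θ ^ 2 * inner ℝ b b := by
  rw [inner_sub_left, inner_sub_right, inner_sub_right, real_inner_smul_left,
    real_inner_smul_right, real_inner_smul_right, real_inner_smul_left, real_inner_comm a b]
  ring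

/-- the reflection at a spherical bounce point -/
theorem bounce {f : E → ℝ} (hf : Differentiable ℝ f) (hg : ∀ x, f x = 0 → gradient f x ≠ 0)
    {p O u u' : E} {ρ : ℝ} (hρ : 0 < ρ) (hfp : f p = 0)
    (h0 : ∀ᶠ x in 𝓝 p, f x = 0 ↔ ‖x - O‖ ^ 2 = ρ)
    (hu' : u' = u - (2 * inner ℝ u (gradient f p) / ‖gradient f p‖ ^ 2) • gradient f p)
    (hneg : inner ℝ u' (gradient f p) < 0) :
    ‖p - O‖ ^ 2 = ρ ∧ u' = u - (2 * inner ℝ (p - O) u / ρ) • (p - O) ∧
    ((∀ᶠ x in 𝓝 p, f x < 0 ↔ ‖x - O‖ ^ 2 < ρ) → 0 < inner ℝ (p - O) u) ∧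
    ((∀ᶠ x in 𝓝 p, f x < 0 ↔ ρ < ‖x - O‖ ^ 2) → inner ℝ (p - O) u < 0) := by
  have hp : ‖p - O‖ ^ 2 = ρ := h0.self_of_nhds.1 hfp
  have hr := grad_radial hf hρ h0 hp
  set lam := inner ℝ (gradient f p) (p - O) / ρ with hlam
  have hg0 := hg p hfp
  have hlam0 : lam ≠ 0 := by
    intro h
    rw [h, zero_smul] at hr
    exact hg0 hr
  have hnorm : ‖gradient f p‖ ^ 2 = lam ^ 2 * ρ := by
    rw [hr, norm_smul, mul_pow, hp, Real.norm_eq_abs, sq_abs]
  have hu2 : u' = u - (2 * inner ℝ (p - O) u / ρ) • (p - O) := by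
    rw [hu', hnorm]
    congr 1
    conv_lhs => rw [hr]
    rw [real_inner_smul_right, smul_smul, real_inner_comm]
    congr 1
    field_simp
  have hyy : inner ℝ (p - O) (p - O) = ρ := by rw [real_inner_self_eq_norm_sq, hp]
  have hneg2 : 0 < lam * inner ℝ (p - O) u := by
    rw [hr, real_inner_smul_right, hu2, inner_sub_left, real_inner_smul_left, hyy,
      div_mul_cancel₀ _ hρ.ne', real_inner_comm (p - O) u] at hneg
    linarith
  refine ⟨hp, hu2, fun hin => ?_, fun hout => ?_⟩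
  · have h1 := sign_in hf hρ hfp hp hin
    have h2 : 0 < lam := lt_of_le_of_ne (div_nonneg h1 hρ.le) (Ne.symm hlam0)
    exact (pos_iff_pos_of_mul_pos hneg2).1 h2
  · have h1 := sign_out hf hρ hfp hp hout
    have h2 : lam < 0 := lt_of_le_of_ne (div_nonpos_of_nonpos_of_nonneg h1 hρ.le) hlam0
    by_contra h3
    push Not at h3
    nlinarith

end geo

variable {n : ℕ}

/-- the line with real coordinates -/
noncomputable def cl (x v : EuclideanSpace ℝ (Fin n)) : Line n ℂ :=
  (fun k => ((x k : ℝ) : ℂ), fun k => ((v k : ℝ) : ℂ))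

/-- the centre as a point of the Euclidean space -/
noncomputable def ce (S : Sph n) : EuclideanSpace ℝ (Fin n) := WithLp.toLp 2 S.O

theorem dot_cast (a b : EuclideanSpace ℝ (Fin n)) :
    (fun i => ((a i : ℝ) : ℂ)) ⬝ᵥ (fun i => ((b i : ℝ) : ℂ)) = ((inner ℝ a b : ℝ) : ℂ) := by
  simp [dotProduct, PiLp.inner_apply, mul_comm]

theorem sub_ctr (S : Sph n) (x : EuclideanSpace ℝ (Fin n)) :
    (fun k => ((x k : ℝ) : ℂ)) - S.ctr ℂ = fun k => (((x - ce S) k : ℝ) : ℂ) := by
  funext k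
  simp [Sph.ctr, ce]

theorem rad_eq (S : Sph n) : S.rad ℂ = ((S.ρ : ℝ) : ℂ) := by
  simp [Sph.rad]

theorem DD_cl (S : Sph n) (x v : EuclideanSpace ℝ (Fin n)) :
    DD S (cl x v) = ((inner ℝ (x - ce S) v ^ 2 - inner ℝ v v *
      (inner ℝ (x - ce S) (x - ce S) - S.ρ) : ℝ) : ℂ) := by
  unfold DD cl
  simp only
  rw [sub_ctr, dot_cast, dot_cast, dot_cast, rad_eq]
  push_cast
  rfl

theorem tau_cl (S : Sph n) (δ : ℝ) (x v : EuclideanSpace ℝ (Fin n)) :
    tau S ((δ : ℝ) : ℂ) (cl x v) = (((δ - inner ℝ (x - ce S) v) / inner ℝ v v : ℝ) : ℂ) := by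
  unfold tau cl
  simp only
  rw [sub_ctr, dot_cast, dot_cast]
  push_cast
  rfl

theorem YY_cl (S : Sph n) (δ : ℝ) (x v y : EuclideanSpace ℝ (Fin n))
    (hy : y = (x - ce S) + ((δ - inner ℝ (x - ce S) v) / inner ℝ v v) • v) :
    YY S ((δ : ℝ) : ℂ) (cl x v) = fun k => ((y k : ℝ) : ℂ) := by
  unfold YY
  rw [tau_cl]
  unfold cl
  simp only
  rw [sub_ctr, hy]
  funext k
  simp

theorem RR_cl (S : Sph n) (δ : ℝ) (x v y : EuclideanSpace ℝ (Fin n)) (τ : ℝ)
    (hτ : τ = (δ - inner ℝ (x - ce S) v) / inner ℝ v v) (hy : y = (x - ce S) + τ • v) :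
    RR S ((δ : ℝ) : ℂ) (cl x v) =
      cl (x + (τ * (2 * δ / S.ρ)) • y) (v - (2 * δ / S.ρ) • y) := by
  unfold RR
  rw [YY_cl S δ x v y (by rw [hy, hτ]), tau_cl, ← hτ, rad_eq]
  unfold cl
  simp only
  apply Prod.ext
  · funext k
    simp
  · funext k
    simp

theorem sum_sq (x : EuclideanSpace ℝ (Fin n)) (S : Sph n) :
    ∑ i, (x i - S.O i) ^ 2 = ‖x - ce S‖ ^ 2 := by
  rw [EuclideanSpace.norm_sq_eq]
  refine Finset.sum_congr rfl fun i _ => ?_
  simp [ce]

theorem dyn : S_dyn := by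
  intro n f hf hg N hN p u T s hpN huN hTN hsN hk hs t c hc
  -- facts at the bounce points
  have hB : ∀ j ≤ N, 0 < (T j).ρ ∧ f (p j) = 0 ∧ inner ℝ (u j) (gradient f (p j)) < 0 ∧
      (∀ᶠ x in nhds (p j), f x = 0 ↔ ‖x - ce (T j)‖ ^ 2 = (T j).ρ) ∧
      (s j = true → ∀ᶠ x in nhds (p j), f x < 0 ↔ ‖x - ce (T j)‖ ^ 2 < (T j).ρ) ∧
      (s j = false → ∀ᶠ x in nhds (p j), f x < 0 ↔ (T j).ρ < ‖x - ce (T j)‖ ^ 2) := by
    have h1 : ∀ j < N, 0 < (T j).ρ ∧ f (p j) = 0 ∧ inner ℝ (u j) (gradient f (p j)) < 0 ∧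
      (∀ᶠ x in nhds (p j), f x = 0 ↔ ‖x - ce (T j)‖ ^ 2 = (T j).ρ) ∧
      (s j = true → ∀ᶠ x in nhds (p j), f x < 0 ↔ ‖x - ce (T j)‖ ^ 2 < (T j).ρ) ∧
      (s j = false → ∀ᶠ x in nhds (p j), f x < 0 ↔ (T j).ρ < ‖x - ce (T j)‖ ^ 2) := by
      intro j hj
      obtain ⟨a1, a2, -, a4, -, -, a7, a8, a9⟩ := hk j hj
      simp only [sum_sq] at a7 a8 a9
      exact ⟨a1, a2, a4, a7, a8, a9⟩
    intro j hj
    rcases lt_or_eq_of_le hj with h | h
    · exact h1 j h
    · rw [h, hpN, huN, hTN, hsN]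
      exact h1 0 (by omega)
  set δ : ℕ → ℝ := fun k => inner ℝ (p (k + 1) - ce (T (k + 1))) (u k) with hδ
  have hF : ∀ k < N, ‖p (k + 1) - ce (T (k + 1))‖ ^ 2 = (T (k + 1)).ρ ∧
      u (k + 1) = u k - (2 * δ k / (T (k + 1)).ρ) • (p (k + 1) - ce (T (k + 1))) ∧
      (s (k + 1) = true → 0 < δ k) ∧ (s (k + 1) = false → δ k < 0) := by
    intro k hkN
    obtain ⟨b1, b2, b3, b4, b5, b6⟩ := hB (k + 1) hkN
    obtain ⟨-, -, -, -, -, a6, -, -, -⟩ := hk k hkN
    obtain ⟨c1, c2, c3, c4⟩ := bounce hf hg b1 b2 b4 a6 b3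
    exact ⟨c1, c2, fun h => c3 (b5 h), fun h => c4 (b6 h)⟩
  have hρ : ∀ k < N, 0 < (T (k + 1)).ρ := fun k hkN => (hB (k + 1) hkN).1
  have hu1 : ∀ k < N, inner ℝ (u k) (u k) = 1 := by
    intro k hkN
    rw [real_inner_self_eq_norm_sq, (hk k hkN).2.2.1, one_pow]
  have hfl : ∀ k, ∃ τ : ℝ, k < N → p (k + 1) = p k + τ • u k := by
    intro k
    by_cases hkN : k < N
    · obtain ⟨τ, -, h⟩ := (hk k hkN).2.2.2.2.1
      exact ⟨τ, fun _ => h⟩
    · exact ⟨0, fun h => absurd h hkN⟩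
  choose fl hfl using hfl
  set TT : ℕ → ℝ := fun k => ∑ i ∈ Finset.range k, fl i with hTT
  have hTTs : ∀ k, TT (k + 1) = TT k + fl k := fun k => Finset.sum_range_succ _ _
  -- the angular momentum
  set AA : ℕ → EuclideanSpace ℝ (Fin n) → ℝ := fun k O =>
    inner ℝ (p k - O) (u k) ^ 2 - inner ℝ (p k - O) (p k - O) with hAA
  have hfree : ∀ k < N, ∀ O, inner ℝ (p (k + 1) - O) (u k) ^ 2 -
      inner ℝ (p (k + 1) - O) (p (k + 1) - O) = AA k O := by
    intro k hkN O
    have e1 : p (k + 1) - O = (p k - O) + fl k • u k := by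
      rw [hfl k hkN]
      abel
    rw [e1]
    simp only [hAA]
    rw [inner_add_left, real_inner_smul_left, hu1 k hkN, inner_add_left, inner_add_right,
      inner_add_right, real_inner_smul_left, real_inner_smul_right, real_inner_smul_left,
      real_inner_smul_right, hu1 k hkN, real_inner_comm (p k - O) (u k)]
    ring
  have hdel : ∀ k < N, AA k (ce (T (k + 1))) = δ k ^ 2 - (T (k + 1)).ρ := by
    intro k hkN
    rw [← hfree k hkN, real_inner_self_eq_norm_sq, (hF k hkN).1]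
  have hyu : ∀ k < N, inner ℝ (p (k + 1) - ce (T (k + 1))) (u (k + 1)) = - δ k := by
    intro k hkN
    rw [(hF k hkN).2.1, inner_sub_right, real_inner_smul_right, real_inner_self_eq_norm_sq,
      (hF k hkN).1, div_mul_cancel₀ _ (hρ k hkN).ne']
    simp only [hδ]
    ring
  have hAAs : ∀ k < N, AA (k + 1) (ce (T (k + 1))) = δ k ^ 2 - (T (k + 1)).ρ := by
    intro k hkN
    simp only [hAA]
    rw [hyu k hkN, real_inner_self_eq_norm_sq, (hF k hkN).1, neg_sq]
  -- the chain
  let ch : ℕ → Ch n ℂ := fun k => Nat.rec [] (fun k ih => (T (k + 1), ((c * δ k : ℝ) : ℂ)) :: ih) k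
  have hch0 : ch 0 = [] := rfl
  have hchs : ∀ k, ch (k + 1) = (T (k + 1), ((c * δ k : ℝ) : ℂ)) :: ch k := fun k => rfl
  set l0 : Line n ℂ := cl (p 0 + t • u 0) (c • u 0) with hl0
  have hmap : ∀ k, (ch k).map Prod.fst = wd T k := by
    intro k
    induction k with
    | zero => rfl
    | succ k ih => rw [hchs, List.map_cons, ih]; rfl
  have hcomp : ∀ (m : ℕ), m ≤ N → ∀ j, j + 1 ≤ N → AA m (ce (T (j + 1))) = δ j ^ 2 - (T (j + 1)).ρ →
      compat (T (j + 1)) ((c * δ j : ℝ) : ℂ) (ch m) := by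
    intro m
    induction m with
    | zero => intro _ j _ _; trivial
    | succ m ih =>
      intro hm j hj hA
      rw [hchs]
      intro hO
      change (T (m + 1)).O = (T (j + 1)).O at hO
      have hce : ce (T (m + 1)) = ce (T (j + 1)) := by unfold ce; rw [hO]
      have h1 : AA (m + 1) (ce (T (j + 1))) = δ m ^ 2 - (T (m + 1)).ρ := by
        rw [← hce]
        exact hAAs m hm
      have h2 : δ m ^ 2 - (T (m + 1)).ρ = δ j ^ 2 - (T (j + 1)).ρ := h1.symm.trans hA
      refine ⟨fun hr => ?_, ih (by omega) j hj ?_⟩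
      · change (T (m + 1)).ρ = (T (j + 1)).ρ at hr
        have h3 : δ m ^ 2 = δ j ^ 2 := by rw [hr] at h2; linarith
        have h4 := hs (m + 1) (j + 1) hm hj hO hr
        have h5 : δ m = δ j := by
          rcases sq_eq_sq_iff_eq_or_eq_neg.1 h3 with h | h
          · exact h
          · exfalso
            cases hsm : s (m + 1) with
            | true =>
              have h6 := (hF m hm).2.2.1 hsm
              have h7 := (hF j hj).2.2.1 (h4 ▸ hsm)
              linarith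
            | false =>
              have h6 := (hF m hm).2.2.2 hsm
              have h7 := (hF j hj).2.2.2 (h4 ▸ hsm)
              linarith
        change ((c * δ m : ℝ) : ℂ) = ((c * δ j : ℝ) : ℂ)
        rw [h5]
      · rw [← hce, hdel m hm, h2]
  have hmain : ∀ k, k ≤ N → endl (ch k) l0 = cl (p k - (TT k - t) • u k) (c • u k) ∧
      Val (ch k) l0 := by
    intro k
    induction k with
    | zero =>
      intro _
      refine ⟨?_, trivial⟩
      rw [hch0]
      change l0 = _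
      have e0 : TT 0 = 0 := Finset.sum_range_zero _
      rw [hl0, e0, zero_sub, neg_smul, sub_neg_eq_add]
    | succ k ih =>
      intro hk1
      obtain ⟨ih1, ih2⟩ := ih (by omega)
      have hkN : k < N := hk1
      set O := ce (T (k + 1)) with hO
      set ρ := (T (k + 1)).ρ with hρ'
      have hρ0 : 0 < ρ := hρ k hkN
      set y := p (k + 1) - O with hy
      have hyy : inner ℝ y y = ρ := by rw [real_inner_self_eq_norm_sq, (hF k hkN).1]
      have hyδ : inner ℝ y (u k) = δ k := rfl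
      have huu := hu1 k hkN
      set θ := TT (k + 1) - t with hθ
      have ex : p k - (TT k - t) • u k - O = y - θ • u k := by
        rw [hy, hθ, hTTs, hfl k hkN]
        simp only [sub_smul, add_smul]
        abel
      have ixu : inner ℝ (p k - (TT k - t) • u k - O) (c • u k) = c * δ k - c * θ := by
        rw [ex, inner_sub_left, real_inner_smul_right, real_inner_smul_left,
          real_inner_smul_right, hyδ, huu]
        ring
      have iuu : inner ℝ (c • u k) (c • u k) = c ^ 2 := by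
        rw [real_inner_smul_left, real_inner_smul_right, huu]
        ring
      have ixx : inner ℝ (p k - (TT k - t) • u k - O) (p k - (TT k - t) • u k - O) =
          ρ - 2 * θ * δ k + θ ^ 2 := by
        rw [ex, inner_sub_smul, hyy, huu, hyδ]
        ring
      have hτ : θ / c = (c * δ k - inner ℝ (p k - (TT k - t) • u k - O) (c • u k)) /
          inner ℝ (c • u k) (c • u k) := by
        rw [ixu, iuu]
        field_simp
        ring
      have hyv : y = (p k - (TT k - t) • u k - O) + (θ / c) • (c • u k) := by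
        rw [ex, smul_smul, div_mul_cancel₀ _ hc.ne']
        abel
      rw [hchs]
      refine ⟨?_, ih2, ?_, ?_⟩
      · change RR (T (k + 1)) ((c * δ k : ℝ) : ℂ) (endl (ch k) l0) = _
        rw [ih1, RR_cl (T (k + 1)) (c * δ k) _ _ y (θ / c) hτ hyv]
        have hu2 : u (k + 1) = u k - (2 * δ k / ρ) • y := (hF k hkN).2.1
        congr 1
        · rw [hu2]
          have e1 : p k - (TT k - t) • u k = p (k + 1) - θ • u k := by
            have := ex
            rw [hy] at this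
            have h2 : p k - (TT k - t) • u k - O + O = p (k + 1) - O - θ • u k + O := by rw [this]
            rw [sub_add_cancel] at h2
            rw [h2]
            abel
          have e2 : θ / c * (2 * (c * δ k) / ρ) = θ * (2 * δ k / ρ) := by
            field_simp
          rw [e1, smul_sub θ (u k) _, smul_smul θ _ y, e2]
          abel
        · rw [hu2, smul_sub c (u k) _, smul_smul c _ y]
          congr 2
          ring
      · change ((c * δ k : ℝ) : ℂ) ^ 2 = DD (T (k + 1)) (endl (ch k) l0)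
        rw [ih1, DD_cl, ixu, iuu, ixx]
        norm_cast
        ring
      · exact hcomp k (by omega) k hk1 (hdel k hkN)
  have e0 : ((fun k => ((p 0 k + t * u 0 k : ℝ) : ℂ)), (fun k => ((c * u 0 k : ℝ) : ℂ))) = l0 := by
    rw [hl0]
    unfold cl
    apply Prod.ext
    · funext k
      simp
    · funext k
      simp
  refine ⟨ch N, hmap N, ?_, ?_⟩
  · rw [e0]
    exact (hmain N le_rfl).2
  · rw [e0, (hmain N le_rfl).1, huN]
    unfold cl
    funext k
    simp

end W973.IV
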